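import Pool.Agent.Lib.MP_a8e783_an.Dual3

set_option autoImplicit false

namespace Pool.Agent.Results.MP_a8e783_an.DualBigger

open Pool.Agent.Lib.MP_a8e783_an

/-- For every positive ε there is a real Banach space X with non-trivial Lie algebra whose second
numerical index is at most ε while the second numerical index of its dual is at least 1/2. -/
theorem result : ∀ ε : ℝ, 0 < ε →
    ∃ (X : Type) (_ : NormedAddCommGroup X) (_ : NormedSpace ℝ X),
      CompleteSpace X ∧ (∃ S : X →L[ℝ] X, S ≠ 0 ∧ numRadius S = 0) ∧
        secondIndex X ≤ ε ∧ 1 / 2 ≤ secondIndex (StrongDual ℝ X) := by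
  intro ε hε
  have h0 : 0 < min ε 1 := lt_min hε one_pos
  exact ⟨T3.XS (min ε 1), inferInstance, inferInstance, inferInstance, T3.exists_skew h0.le,
    (T3.secondIndex_XS h0).trans (min_le_left _ _), T3.half_le_dual h0.le (min_le_right _ _)⟩

end Pool.Agent.Results.MP_a8e783_an.DualBigger
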